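import Pool.Agent.W351.DX.Evm
import Pool.Agent.W443.DX.Stm4

/-! Project DX part 3 (owner helper443): base change of the relations. -/

set_option autoImplicit false

open MvPolynomial

namespace Pool.Agent.W455.DX

open Pool.Agent.W443.DX Pool.Agent.W351.DX

section
variable {R S : Type} [CommRing R] [CommRing S] (σ : R →+* S)

theorem mapW_wx : mapW σ (wx R) = wx S := by
  have h1 : wx R = nf R (X 0) := rfl
  have h2 : wx S = nf S (X 0) := rfl
  rw [h1, h2, mapW_nf, map_X]

theorem mapW_wy : mapW σ (wy R) = wy S := by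
  have h1 : wy R = nf R (X 1) := rfl
  have h2 : wy S = nf S (X 1) := rfl
  rw [h1, h2, mapW_nf, map_X]

end

theorem rmp : S_RMP := by
  intro R S _ _ σ P Q u α β γ
  have key : ∀ (A B C : MvPolynomial (Fin 2) R) (v : W R),
      mapW σ (ev P Q A * v) = ev (mapW σ P) (mapW σ Q) (MvPolynomial.map σ A) * mapW σ v := by
    intro A B C v
    rw [map_mul, mapW_ev]
  have key2 : ∀ (B C : MvPolynomial (Fin 2) R),
      mapW σ (ev P Q B + ev P Q C * u) =
      ev (mapW σ P) (mapW σ Q) (MvPolynomial.map σ B) +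
        ev (mapW σ P) (mapW σ Q) (MvPolynomial.map σ C) * mapW σ u := by
    intro B C
    rw [map_add, map_mul, mapW_ev, mapW_ev]
  refine ⟨fun h => ?_, fun hσ h => ?_⟩
  · obtain ⟨h0, h1, h2, h3⟩ := h
    have g0 := congrArg (mapW σ) h0
    have g1 := congrArg (mapW σ) h1
    have g2 := congrArg (mapW σ) h2
    have g3 := congrArg (mapW σ) h3
    rw [key2, map_mul, mapW_ev, mapW_wx] at g0
    rw [key2, map_mul, mapW_ev, mapW_wy] at g1
    rw [key2, map_mul, mapW_ev, map_mul, mapW_wx] at g2
    rw [key2, map_mul, mapW_ev, map_mul, mapW_wy] at g3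
    exact ⟨g0, g1, g2, g3⟩
  · obtain ⟨h0, h1, h2, h3⟩ := h
    refine ⟨?_, ?_, ?_, ?_⟩
    · apply mapW_injective σ hσ
      rw [key2, map_mul, mapW_ev, mapW_wx]
      exact h0
    · apply mapW_injective σ hσ
      rw [key2, map_mul, mapW_ev, mapW_wy]
      exact h1
    · apply mapW_injective σ hσ
      rw [key2, map_mul, mapW_ev, map_mul, mapW_wx]
      exact h2
    · apply mapW_injective σ hσ
      rw [key2, map_mul, mapW_ev, map_mul, mapW_wy]
      exact h3

end Pool.Agent.W455.DX
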